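import Pool.Agent.Helper68.Ucg.Goals

/-!
# The diagonal of the corner: the abstract part
-/

set_option autoImplicit false

open scoped ComplexOrder

namespace Pool.Agent.Helper12.Ucg

open Pool.Agent.Helper39.Uct Pool.Agent.Helper68.Ucg

variable {A : Type} [NonUnitalCStarAlgebra A]

section dd

variable {G : Diag A} {m : ℕ} {n : Fin m → A} {d u : A}

theorem Dd_le_D (hd : d ∈ G.D) : Dd G d ≤ G.D := by
  refine Submodule.topologicalClosure_minimal _ ?_ G.closed
  rintro _ ⟨x, hx, rfl⟩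
  exact G.D_mul d hd x hx

theorem mem_Dd {x : A} : x ∈ Dd G d ↔ x ∈ closure {a | ∃ y ∈ G.D, a = d * y} := by
  have e : ((Submodule.map (LinearMap.mulLeft ℂ d) G.D : Submodule ℂ A) : Set A) =
      {a | ∃ y ∈ G.D, a = d * y} := by
    ext a
    constructor
    · rintro ⟨y, hy, rfl⟩
      exact ⟨y, hy, rfl⟩
    · rintro ⟨y, hy, rfl⟩
      exact ⟨y, hy, rfl⟩
  rw [← e]
  rfl

theorem Dd_mulD {x y : A} (hx : x ∈ Dd G d) (hy : y ∈ G.D) : x * y ∈ Dd G d := by
  rw [mem_Dd] at hx ⊢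
  refine map_mem_closure (f := fun a => a * y) (by fun_prop) hx ?_
  rintro _ ⟨z, hz, rfl⟩
  exact ⟨z * y, G.D_mul z hz y hy, mul_assoc d z y⟩

theorem Dd_star (hC : G.Comm) (hd : d ∈ G.D) (hsa : IsSelfAdjoint d) {x : A}
    (hx : x ∈ Dd G d) : star x ∈ Dd G d := by
  rw [mem_Dd] at hx ⊢
  refine map_mem_closure (f := fun a => star a) (by fun_prop) hx ?_
  rintro _ ⟨z, hz, rfl⟩
  exact ⟨star z, G.D_star z hz, by
    show star (d * z) = _
    rw [star_mul, hsa.star_eq, hC _ (G.D_star z hz) d hd]⟩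

/-- `Dd` as a subalgebra. -/
def ddAlg (G : Diag A) (d : A) (hC : G.Comm) (hd : d ∈ G.D) (hsa : IsSelfAdjoint d) :
    NonUnitalStarSubalgebra ℂ A where
  carrier := Dd G d
  add_mem' := fun ha hb => (Dd G d).add_mem ha hb
  zero_mem' := (Dd G d).zero_mem
  mul_mem' := fun {_ _} ha hb => Dd_mulD ha (Dd_le_D hd hb)
  smul_mem' := fun c _ hx => (Dd G d).smul_mem c hx
  star_mem' := fun {_} ha => Dd_star hC hd hsa ha

theorem exists_unit_Dd (hC : G.Comm) (hd : d ∈ G.D) (hsa : IsSelfAdjoint d) {x : A}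
    (hx : x ∈ Dd G d) (ε : ℝ) (hε : 0 < ε) :
    ∃ v ∈ Dd G d, ‖v‖ ≤ 1 ∧ ‖v * x - x‖ < ε := by
  obtain ⟨v, hv, _, h1, h2⟩ := exists_au (ddAlg G d hC hd hsa)
    (Submodule.isClosed_topologicalClosure _) {x} (fun b hb => by
      rw [Finset.mem_singleton.1 hb]
      exact Dd_mulD hx (G.D_star _ (Dd_le_D hd hx))) ε hε
  exact ⟨v, hv, h1, h2 x (by simp)⟩

theorem mem_closure_prod (hC : G.Comm) (hd : d ∈ G.D) (hsa : IsSelfAdjoint d) {x : A}
    (hx : x ∈ Dd G d) : x ∈ closure {a | ∃ v ∈ Dd G d, a = v * x} := by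
  rw [Metric.mem_closure_iff]
  intro ε hε
  obtain ⟨v, hv, _, h⟩ := exists_unit_Dd hC hd hsa hx ε hε
  exact ⟨v * x, ⟨v, hv, rfl⟩, by rw [dist_comm, dist_eq_norm]; exact h⟩

theorem nx_mem (i : Fin m) {x : A} (hx : x ∈ Dd G d) : n i * x ∈ RR G n d := by
  classical
  refine ⟨fun j => if j = i then x else 0, fun j => ?_, ?_⟩
  · dsimp only
    split_ifs
    · exact hx
    · exact (Dd G d).zero_mem
  · rw [Finset.sum_eq_single i]
    · simp
    · intro j _ hj
      simp [hj]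
    · intro h
      exact absurd (Finset.mem_univ i) h

theorem nR_mem (hC : G.Comm) (hd : d ∈ G.D) (hsa : IsSelfAdjoint d) (hK : KF G n d)
    (i : Fin m) {r : A} (hr : r ∈ RR G n d) : n i * r ∈ RR G n d := by
  obtain ⟨x, hx, rfl⟩ := hr
  rw [Finset.mul_sum]
  refine (RR G n d).sum_mem fun j _ => ?_
  have h := mem_closure_prod hC hd hsa (hx j)
  have h2 : n i * (n j * x j) ∈ closure (RR G n d : Set A) := by
    refine map_mem_closure (f := fun a => n i * (n j * a)) (by fun_prop) h ?_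
    rintro _ ⟨v, hv, rfl⟩
    have e : n i * (n j * (v * x j)) = (n i * v) * (n j * x j) := by
      rw [← mul_assoc (n j) v, ← hK.comm j v hv]
      noncomm_ring
    show n i * (n j * (v * x j)) ∈ RR G n d
    rw [e]
    exact hK.mul _ (nx_mem i hv) _ (nx_mem j (hx j))
  rwa [hK.closed.closure_eq] at h2

/-- The products of `l` with elements of `RR`. -/
def LR (G : Diag A) {m : ℕ} (n : Fin m → A) (d l : A) : Submodule ℂ A :=
  Submodule.map (LinearMap.mulLeft ℂ l) (RR G n d)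

theorem mem_LR {l a : A} : a ∈ LR G n d l ↔ ∃ r ∈ RR G n d, a = l * r := by
  constructor
  · rintro ⟨r, hr, rfl⟩
    exact ⟨r, hr, rfl⟩
  · rintro ⟨r, hr, rfl⟩
    exact ⟨r, hr, rfl⟩

theorem slc' (hC : G.Comm) (hd : d ∈ G.D) (hsa : IsSelfAdjoint d) (hK : KF G n d)
    (hn : ∀ i, n i ∈ G.N)
    (hS : ∀ s ∈ RR G n d, ∀ w ∈ G.N, ∀ y ∈ Dd G d,
      s * w * y ∈ closure {a | ∃ r ∈ RR G n d, a = w * r})
    {t l r : A} (ht : t ∈ RR G n d) (hl : l ∈ G.N) (hr : r ∈ RR G n d) :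
    t * l * r ∈ (LR G n d l).topologicalClosure := by
  obtain ⟨x, hx, rfl⟩ := hr
  rw [Finset.mul_sum]
  refine Submodule.sum_mem _ fun i _ => ?_
  have h := hS t ht (l * n i) (G.N_mul l hl _ (hn i)) (x i) (hx i)
  have e : t * l * (n i * x i) = t * (l * n i) * x i := by noncomm_ring
  rw [e]
  refine closure_mono ?_ h
  rintro _ ⟨r, hr, rfl⟩
  exact mem_LR.2 ⟨n i * r, nR_mem hC hd hsa hK i hr, by rw [mul_assoc]⟩

end dd

section core

variable {H : Type} [NonUnitalCStarAlgebra H]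

/-- The data for the corner. -/
structure TT (G : Diag A) {m : ℕ} (n : Fin m → A) (d u s : A) (T : A →ₗ[ℂ] H) : Prop where
  comm : G.Comm
  d_mem : d ∈ G.D
  d_sa : IsSelfAdjoint d
  u_mem : u ∈ G.D
  hn : ∀ i, n i ∈ G.N
  kf : KF G n d
  slc : ∀ s ∈ RR G n d, ∀ w ∈ G.N, ∀ y ∈ Dd G d,
      s * w * y ∈ closure {a | ∃ r ∈ RR G n d, a = w * r}
  ort : ∀ l ∈ G.N, ∀ t ∈ RR G n d, star (kap G n l) * t * (l - kap G n l) = 0
  s_mem : s ∈ RR G n d
  cont : Continuous T
  dense : DenseRange T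
  map_star : ∀ a, T (star a) = star (T a)
  map_mul : ∀ a b, T a * T b = T (a * s * b)
  unit : ∀ ε : ℝ, 0 < ε → ∃ v ∈ Dd G d, ∀ a, ‖T (a * v) - T a‖ ≤ ε * ‖a‖
  map_u : ∀ a, T (u * a) = T a
  cex : ∀ a, ‖T (kap G n a)‖ ≤ ‖T a‖
  epr1 : ∀ a, T (kap G n (star a)) = star (T (kap G n a))
  epr2 : ∀ t ∈ RR G n d, ∀ a, T (kap G n (t * a)) = T (t * kap G n a)
  epr3 : ∀ t ∈ RR G n d, ∀ a, T (kap G n (a * t)) = T (kap G n a * t)
  tcomm : ∀ x ∈ RR G n d, ∀ y ∈ RR G n d, T x * T y = T y * T x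

variable {G : Diag A} {m : ℕ} {n : Fin m → A} {d u s : A} {T : A →ₗ[ℂ] H}

/-- The diagonal of the corner. -/
def D1 (G : Diag A) {m : ℕ} (n : Fin m → A) (d : A) (T : A →ₗ[ℂ] H) : Submodule ℂ H :=
  (Submodule.map T (RR G n d)).topologicalClosure

/-- The part of the corner over `l`. -/
def MM (G : Diag A) {m : ℕ} (n : Fin m → A) (d : A) (T : A →ₗ[ℂ] H) (l : A) :
    Submodule ℂ H :=
  (Submodule.map T (LR G n d l)).topologicalClosure

theorem MM_gen {l r : A} (hr : r ∈ RR G n d) : T (l * r) ∈ MM G n d T l :=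
  Submodule.le_topologicalClosure _ ⟨l * r, mem_LR.2 ⟨r, hr, rfl⟩, rfl⟩

theorem D1_gen {r : A} (hr : r ∈ RR G n d) : T r ∈ D1 G n d T :=
  Submodule.le_topologicalClosure _ ⟨r, hr, rfl⟩

theorem MM_ind {l : A} {P : H → Prop} (hP : IsClosed {x | P x})
    (h : ∀ r ∈ RR G n d, P (T (l * r))) {x : H} (hx : x ∈ MM G n d T l) : P x := by
  refine closure_minimal ?_ hP hx
  rintro _ ⟨_, ⟨r, hr, rfl⟩, rfl⟩
  exact h r hr

theorem D1_ind {P : H → Prop} (hP : IsClosed {x | P x})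
    (h : ∀ r ∈ RR G n d, P (T r)) {x : H} (hx : x ∈ D1 G n d T) : P x := by
  refine closure_minimal ?_ hP hx
  rintro _ ⟨r, hr, rfl⟩
  exact h r hr

theorem TT.LR_MM (h : TT G n d u s T) {l x : A} (hx : x ∈ (LR G n d l).topologicalClosure) :
    T x ∈ MM G n d T l := by
  refine map_mem_closure h.cont hx ?_
  intro y hy
  exact ⟨y, hy, rfl⟩

theorem TT.slc'' (h : TT G n d u s T) {t l r : A} (ht : t ∈ RR G n d) (hl : l ∈ G.N)
    (hr : r ∈ RR G n d) : t * l * r ∈ (LR G n d l).topologicalClosure :=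
  slc' h.comm h.d_mem h.d_sa h.kf h.hn h.slc ht hl hr

theorem LR_mul {l l' x : A} (hx : x ∈ (LR G n d l').topologicalClosure) :
    l * x ∈ (LR G n d (l * l')).topologicalClosure := by
  refine map_mem_closure (f := fun a => l * a) (by fun_prop) hx ?_
  rintro _ ⟨r, hr, rfl⟩
  exact ⟨r, hr, by simp⟩

theorem TT.MM_mul (h : TT G n d u s T) {l l' : A} (hl' : l' ∈ G.N)
    {x y : H} (hx : x ∈ MM G n d T l) (hy : y ∈ MM G n d T l') :
    x * y ∈ MM G n d T (l * l') := by
  refine MM_ind (P := fun x => x * y ∈ MM G n d T (l * l')) ?_ ?_ hx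
  · exact (Submodule.isClosed_topologicalClosure _).preimage
      (f := fun x => x * y) (by fun_prop)
  intro r hr
  refine MM_ind (P := fun y => T (l * r) * y ∈ MM G n d T (l * l')) ?_ ?_ hy
  · exact (Submodule.isClosed_topologicalClosure _).preimage
      (f := fun y => T (l * r) * y) (by fun_prop)
  intro r' hr'
  rw [h.map_mul]
  have h1 := LR_mul (l := l) (h.slc'' (h.kf.mul r hr s h.s_mem) hl' hr')
  have e : l * r * s * (l' * r') = l * (r * s * l' * r') := by noncomm_ring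
  rw [e]
  exact h.LR_MM h1

theorem TT.T_closure (h : TT G n d u s T) (a : A) :
    T a ∈ closure {x | ∃ v ∈ Dd G d, x = T (a * v)} := by
  rw [Metric.mem_closure_iff]
  intro ε hε
  obtain ⟨v, hv, hva⟩ := h.unit (ε / (‖a‖ + 1)) (by positivity)
  refine ⟨T (a * v), ⟨v, hv, rfl⟩, ?_⟩
  rw [dist_comm, dist_eq_norm]
  refine (hva a).trans_lt ?_
  rw [div_mul_eq_mul_div, div_lt_iff₀ (by positivity)]
  nlinarith [norm_nonneg a]

theorem TT.T_mem (h : TT G n d u s T) (V : Submodule ℂ H) (hV : IsClosed (V : Set H)) {a : A}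
    (ha : ∀ v ∈ Dd G d, T (a * v) ∈ V) : T a ∈ V := by
  have := closure_minimal (t := (V : Set H)) (by
    rintro _ ⟨v, hv, rfl⟩
    exact ha v hv) hV (h.T_closure a)
  exact this

theorem TT.MM_star (h : TT G n d u s T) {l : A} (hl : l ∈ G.N) {x : H}
    (hx : x ∈ MM G n d T l) : star x ∈ MM G n d T (star l) := by
  refine MM_ind (P := fun x => star x ∈ MM G n d T (star l)) ?_ ?_ hx
  · exact (Submodule.isClosed_topologicalClosure _).preimage
      (f := fun x => star x) (by fun_prop)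
  intro r hr
  rw [← h.map_star]
  refine h.T_mem _ (Submodule.isClosed_topologicalClosure _) fun v hv => ?_
  rw [star_mul]
  exact h.LR_MM (h.slc'' (h.kf.star r hr) (G.N_star l hl) (h.kf.Dd_le hv))

theorem TT.MM_D (h : TT G n d u s T) {l : A} (hl : l ∈ G.D) {x : H}
    (hx : x ∈ MM G n d T l) : x ∈ D1 G n d T := by
  refine MM_ind (P := fun x => x ∈ D1 G n d T) (Submodule.isClosed_topologicalClosure _) ?_ hx
  intro r hr
  exact D1_gen (h.kf.cent l hl r hr).1

theorem TT.D_MM (h : TT G n d u s T) {x : H} (hx : x ∈ D1 G n d T) : x ∈ MM G n d T u := by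
  refine D1_ind (P := fun x => x ∈ MM G n d T u) (Submodule.isClosed_topologicalClosure _) ?_ hx
  intro r hr
  rw [← h.map_u r]
  exact MM_gen hr

theorem TT.T_MM (h : TT G n d u s T) (l : A) : T l ∈ MM G n d T l :=
  h.T_mem _ (Submodule.isClosed_topologicalClosure _) fun _ hv => MM_gen (h.kf.Dd_le hv)

/-- The expectation. -/
noncomputable def E1 (G : Diag A) {m : ℕ} (n : Fin m → A) (T : A →ₗ[ℂ] H) : H →L[ℂ] H :=
  (T ∘ₗ kap G n).extendOfNorm T

theorem TT.E1_T (h : TT G n d u s T) (a : A) : E1 G n T (T a) = T (kap G n a) :=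
  LinearMap.extendOfNorm_eq h.dense ⟨1, fun x => by simpa using h.cex x⟩ a

theorem TT.E1_norm (h : TT G n d u s T) (x : H) : ‖E1 G n T x‖ ≤ ‖x‖ := by
  have := LinearMap.norm_extendOfNorm_apply_le (f := T ∘ₗ kap G n) h.dense 1
    (fun x => by simpa using h.cex x) x
  rwa [one_mul] at this

theorem TT.E1_mem (h : TT G n d u s T) (x : H) : E1 G n T x ∈ D1 G n d T := by
  refine h.dense.induction_on (p := fun x => E1 G n T x ∈ D1 G n d T) x ?_ ?_
  · exact (Submodule.isClosed_topologicalClosure _).preimage (E1 G n T).continuous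
  intro a
  rw [h.E1_T]
  exact h.T_mem _ (Submodule.isClosed_topologicalClosure _) fun v hv =>
    D1_gen (h.kf.kap_mem a v hv)

theorem TT.E1_id (h : TT G n d u s T) {x : H} (hx : x ∈ D1 G n d T) : E1 G n T x = x := by
  refine D1_ind (P := fun x => E1 G n T x = x)
    (isClosed_eq (E1 G n T).continuous continuous_id) ?_ hx
  intro r hr
  rw [h.E1_T, h.kf.kap_id r hr]

theorem TT.E1_star (h : TT G n d u s T) (x : H) : E1 G n T (star x) = star (E1 G n T x) := by
  refine h.dense.induction_on (p := fun x => E1 G n T (star x) = star (E1 G n T x)) x ?_ ?_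
  · exact isClosed_eq (by fun_prop) (by fun_prop)
  intro a
  rw [← h.map_star, h.E1_T, h.E1_T, h.epr1]

theorem TT.E1_mul (h : TT G n d u s T) {x : H} (hx : x ∈ D1 G n d T) (y : H) :
    E1 G n T (x * y) = x * E1 G n T y := by
  refine h.dense.induction_on (p := fun y => E1 G n T (x * y) = x * E1 G n T y) y ?_ ?_
  · exact isClosed_eq (by fun_prop) (by fun_prop)
  intro a
  refine D1_ind (P := fun x => E1 G n T (x * T a) = x * E1 G n T (T a)) ?_ ?_ hx
  · exact isClosed_eq (by fun_prop) (by fun_prop)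
  intro t ht
  rw [h.map_mul, h.E1_T, h.E1_T, h.map_mul, h.epr2 _ (h.kf.mul t ht s h.s_mem)]

theorem TT.E1_unit (h : TT G n d u s T) {l : A} (hl : l ∈ G.N) {y : H}
    (hy : y ∈ MM G n d T l) {x : H} (hx : x ∈ D1 G n d T) :
    star (E1 G n T y) * x * y = star (E1 G n T y) * x * E1 G n T y := by
  refine D1_ind (P := fun x => star (E1 G n T y) * x * y =
    star (E1 G n T y) * x * E1 G n T y) ?_ ?_ hx
  · exact isClosed_eq (by fun_prop) (by fun_prop)
  intro t ht
  refine MM_ind (P := fun y => star (E1 G n T y) * T t * y =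
    star (E1 G n T y) * T t * E1 G n T y) ?_ ?_ hy
  · exact isClosed_eq (by fun_prop) (by fun_prop)
  intro r hr
  rw [h.E1_T, h.epr3 r hr, ← h.map_star, h.map_mul, h.map_mul, h.map_mul]
  have h1 := h.ort l hl (s * t * s) (h.kf.mul _ (h.kf.mul _ h.s_mem _ ht) _ h.s_mem)
  rw [← sub_eq_zero, ← map_sub]
  have e : star (kap G n l * r) * s * t * s * (l * r) -
      star (kap G n l * r) * s * t * s * (kap G n l * r) =
      star r * (star (kap G n l) * (s * t * s) * (l - kap G n l)) * r := by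
    rw [star_mul]
    noncomm_ring
  rw [e, h1, mul_zero, zero_mul, map_zero]

theorem TT.D1_comm (h : TT G n d u s T) {x y : H} (hx : x ∈ D1 G n d T)
    (hy : y ∈ D1 G n d T) : x * y = y * x := by
  refine D1_ind (P := fun x => x * y = y * x) (isClosed_eq (by fun_prop) (by fun_prop)) ?_ hx
  intro t ht
  refine D1_ind (P := fun y => T t * y = y * T t)
    (isClosed_eq (by fun_prop) (by fun_prop)) ?_ hy
  intro t' ht'
  exact h.tcomm t ht t' ht'

/-- The commutative diagonal of the corner. -/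
noncomputable def TT.diag (h : TT G n d u s T) : Diag H where
  D := D1 G n d T
  N := {x | ∃ l ∈ G.N, x ∈ MM G n d T l}
  E := (E1 G n T : H →ₗ[ℂ] H)
  closed := Submodule.isClosed_topologicalClosure _
  D_mul x hx y hy := by
    exact h.MM_D (G.D_mul _ h.u_mem _ h.u_mem)
      (h.MM_mul (G.D_sub u h.u_mem) (h.D_MM hx) (h.D_MM hy))
  D_star x hx := h.MM_D (G.D_star _ h.u_mem) (h.MM_star (G.D_sub u h.u_mem) (h.D_MM hx))
  D_sub x hx := ⟨u, G.D_sub u h.u_mem, h.D_MM hx⟩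
  N_mul := by
    rintro x ⟨l, hl, hx⟩ y ⟨l', hl', hy⟩
    exact ⟨l * l', G.N_mul l hl l' hl', h.MM_mul hl' hx hy⟩
  N_star := by
    rintro x ⟨l, hl, hx⟩
    exact ⟨star l, G.N_star l hl, h.MM_star hl hx⟩
  N_smul := by
    rintro z x ⟨l, hl, hx⟩
    exact ⟨l, hl, (MM G n d T l).smul_mem z hx⟩
  N_norm := by
    rintro x ⟨l, hl, hx⟩
    exact h.MM_D (G.N_norm l hl) (h.MM_mul hl (h.MM_star hl hx) hx)
  N_conj := by
    rintro x ⟨l, hl, hx⟩ y hy
    exact h.MM_D (G.N_conj l hl u h.u_mem) (h.MM_mul hl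
      (h.MM_mul (G.D_sub u h.u_mem) (h.MM_star hl hx) (h.D_MM hy)) hx)
  dense := by
    rw [eq_top_iff]
    intro x _
    refine h.dense.induction_on (p := fun x => x ∈ (Submodule.span ℂ
      {x | ∃ l ∈ G.N, x ∈ MM G n d T l}).topologicalClosure) x
      (Submodule.isClosed_topologicalClosure _) ?_
    intro a
    have ha : a ∈ (Submodule.span ℂ G.N).topologicalClosure := by
      rw [G.dense]
      trivial
    refine map_mem_closure h.cont ha ?_
    intro y hy
    refine Submodule.span_induction (p := fun y _ => T y ∈ (Submodule.span ℂ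
      {x | ∃ l ∈ G.N, x ∈ MM G n d T l})) ?_ ?_ ?_ ?_ hy
    · intro l hl
      exact Submodule.subset_span ⟨l, hl, h.T_MM l⟩
    · rw [map_zero]
      exact Submodule.zero_mem _
    · intro a b _ _ ha hb
      rw [map_add]
      exact Submodule.add_mem _ ha hb
    · intro z a _ ha
      rw [map_smul]
      exact Submodule.smul_mem _ z ha
  E_mem a := h.E1_mem a
  E_id x hx := h.E1_id hx
  E_bound a := h.E1_norm a
  E_star a := h.E1_star a
  E_mul x hx a := h.E1_mul hx a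
  E_unit := by
    rintro y ⟨l, hl, hy⟩ x hx
    exact h.E1_unit hl hy hx

theorem TT.exists_diag (h : TT G n d u s T) : ∃ G' : Diag H, G'.Comm :=
  ⟨h.diag, fun _ hx _ hy => h.D1_comm hx hy⟩

end core

end Pool.Agent.Helper12.Ucg
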