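import Pool.Agent.Helper12.Ucg.Core

/-!
# The corner has a commutative diagonal
-/

set_option autoImplicit false

open scoped ComplexOrder

namespace Pool.Agent.Helper12.Ucg

open Pool.Agent.Helper39.Uct Pool.Agent.Helper68.Ucg
open Pool.Agent.Helper10.Uct (exists_alg)
open Pool.Agent.Helper17.Uct (exists_phi)

section corner

variable {B : Type} [NonUnitalCStarAlgebra B]

/-- The closure of `e B e`. -/
def EBE (e : B) : Submodule ℂ B :=
  (LinearMap.range ((LinearMap.mulLeft ℂ e).comp (LinearMap.mulRight ℂ e))).topologicalClosure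

theorem mem_EBE {e x : B} : x ∈ EBE e ↔ x ∈ closure {y | ∃ b, y = e * b * e} := by
  have h : ((LinearMap.range ((LinearMap.mulLeft ℂ e).comp (LinearMap.mulRight ℂ e)) :
      Submodule ℂ B) : Set B) = {y | ∃ b, y = e * b * e} := by
    ext y
    constructor
    · rintro ⟨b, rfl⟩
      exact ⟨b, by simp [mul_assoc]⟩
    · rintro ⟨b, rfl⟩
      exact ⟨b, by simp [mul_assoc]⟩
  rw [← h]
  rfl

theorem ebe_mem (e b : B) : e * b * e ∈ EBE e := mem_EBE.2 (subset_closure ⟨b, rfl⟩)

theorem EBE_hered {e x y : B} (b : B) (hx : x ∈ EBE e) (hy : y ∈ EBE e) :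
    x * b * y ∈ EBE e := by
  rw [mem_EBE] at hx hy ⊢
  refine map_mem_closure₂ (f := fun x y => x * b * y) (by fun_prop) hx hy ?_
  rintro _ ⟨c, rfl⟩ _ ⟨c', rfl⟩
  exact ⟨c * e * b * e * c', by noncomm_ring⟩

theorem EBE_mul {e x y : B} (hx : x ∈ EBE e) (hy : y ∈ EBE e) :
    x * y ∈ EBE e := by
  rw [mem_EBE] at hx hy ⊢
  refine map_mem_closure₂ (f := fun x y => x * y) (by fun_prop) hx hy ?_
  rintro _ ⟨c, rfl⟩ _ ⟨c', rfl⟩
  exact ⟨c * e * e * c', by noncomm_ring⟩

theorem EBE_star {e x : B} (he : IsSelfAdjoint e) (hx : x ∈ EBE e) : star x ∈ EBE e := by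
  rw [mem_EBE] at hx ⊢
  refine map_mem_closure (f := fun x => star x) (by fun_prop) hx ?_
  rintro _ ⟨c, rfl⟩
  exact ⟨star c, by
    show star (e * c * e) = _
    rw [star_mul, star_mul, he.star_eq]; noncomm_ring⟩

theorem cube_ne {e : B} (he : IsSelfAdjoint e) (h0 : e ≠ 0) : e * e * e ≠ 0 := by
  intro h
  have h1 : (e * e) * (e * e) = 0 := by
    have : (e * e) * (e * e) = (e * e * e) * e := by noncomm_ring
    rw [this, h, zero_mul]
  have h2 : ‖(e * e) * (e * e)‖ = ‖e * e‖ * ‖e * e‖ := by
    have hs : star (e * e) = e * e := by rw [star_mul, he.star_eq]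
    have := CStarRing.norm_star_mul_self (x := e * e)
    rwa [hs] at this
  have h3 : ‖e * e‖ = ‖e‖ * ‖e‖ := by
    have := CStarRing.norm_star_mul_self (x := e)
    rwa [he.star_eq] at this
  rw [h1, norm_zero, h3] at h2
  have h4 : 0 < ‖e‖ := norm_pos_iff.2 h0
  have : 0 < ‖e‖ * ‖e‖ * (‖e‖ * ‖e‖) := by positivity
  linarith

end corner

theorem hdg (hKF : S_KF) (hSLC : S_SLC) (hORT : S_ORT) (hPCL : S_PCL) (hCEX : S_CEX)
    (hEPR : S_EPR) : S_HDG := by
  intro A B _ _ G π m n d u g e h
  have hC := h.comm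
  have hd := h.kd.d_mem
  have hdsa := h.kd.d_sa
  have hK : KF G n d := hKF A G hC m n d u h.kd
  have hπc : Continuous π := by
    refine AddMonoidHomClass.continuous_of_bound π 1 fun a => ?_
    rw [one_mul]
    exact NonUnitalStarAlgHom.norm_apply_le π a
  have hn : ∀ i, n i ∈ G.N := by
    intro i
    obtain ⟨φ, hφ⟩ := exists_phi (G := fgr G) t_PE (fgr_comm hC) (c := d)
      (by rw [fgr_one]; exact hd) h.kd.d_ne
    exact (h.kd.iso i φ hφ).1
  have hgR : g ∈ RR G n d := hK.Dd_le h.g_mem
  -- `e` is in the image of `RR`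
  obtain ⟨e₀, he₀, hee₀⟩ : e ∈ π '' (RR G n d : Set A) := by
    rw [← (hPCL A B G π hC m n d u h.kd).closure_eq]
    refine closure_mono ?_ h.e_mem
    rintro _ ⟨r, hr, rfl⟩
    exact ⟨g * r * g, hK.mul _ (hK.mul _ hgR _ hr) _ hgR, by rw [map_mul, map_mul]⟩
  have hs : e₀ * e₀ ∈ RR G n d := hK.mul _ he₀ _ he₀
  have hπs : π (e₀ * e₀) = e * e := by rw [map_mul, hee₀]
  -- `e` absorbs `u`
  have hgu : g * u = g := by
    have h1 : g ∈ {x : A | u * x = x} := by
      refine closure_minimal ?_ (isClosed_eq (by fun_prop) (by fun_prop)) (mem_Dd.1 h.g_mem)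
      rintro _ ⟨y, _, rfl⟩
      show u * (d * y) = d * y
      rw [← mul_assoc, h.kd.u_d]
    rw [hC g (Dd_le_D hd h.g_mem) u h.kd.u_mem]
    exact h1
  have heu : e * π u = e := by
    have h1 : e ∈ {x : B | x * π u = x} := by
      refine closure_minimal ?_ (isClosed_eq (by fun_prop) (by fun_prop)) h.e_mem
      rintro _ ⟨r, _, rfl⟩
      have h2 : π g * π u = π g := by rw [← map_mul, hgu]
      show π g * π r * π g * π u = π g * π r * π g
      rw [mul_assoc (π g * π r) (π g) (π u), h2]
    exact h1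
  -- approximate units
  have hunit : ∀ δ : ℝ, 0 < δ → ∃ v ∈ Dd G d, ‖π v * e - e‖ < δ := by
    intro δ hδ
    obtain ⟨_, ⟨r, hr, rfl⟩, hy⟩ := Metric.mem_closure_iff.1 h.e_mem (δ / 4) (by positivity)
    rw [dist_eq_norm] at hy
    obtain ⟨v, hv, hv1, hvg⟩ := exists_unit_Dd hC hd hdsa h.g_mem
      (δ / (4 * (‖π r * π g‖ + 1))) (by positivity)
    refine ⟨v, hv, ?_⟩
    set y : B := π g * π r * π g with hydef
    have h1 : ‖π v * y - y‖ ≤ δ / 4 := by
      have e1 : π v * y - y = π (v * g - g) * (π r * π g) := by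
        rw [map_sub, map_mul, hydef]
        noncomm_ring
      rw [e1]
      calc ‖π (v * g - g) * (π r * π g)‖ ≤ ‖π (v * g - g)‖ * ‖π r * π g‖ := norm_mul_le _ _
        _ ≤ ‖v * g - g‖ * ‖π r * π g‖ := by
            gcongr
            exact NonUnitalStarAlgHom.norm_apply_le π _
        _ ≤ δ / (4 * (‖π r * π g‖ + 1)) * ‖π r * π g‖ := by gcongr
        _ ≤ δ / (4 * (‖π r * π g‖ + 1)) * (‖π r * π g‖ + 1) := by
            gcongr
            linarith
        _ = δ / 4 := by
            field_simp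
    have h2 : ‖π v * (e - y)‖ ≤ δ / 4 := by
      calc ‖π v * (e - y)‖ ≤ ‖π v‖ * ‖e - y‖ := norm_mul_le _ _
        _ ≤ 1 * (δ / 4) := by
            gcongr
            exact (NonUnitalStarAlgHom.norm_apply_le π _).trans hv1
        _ = δ / 4 := one_mul _
    have e2 : π v * e - e = π v * (e - y) + (π v * y - y) + (y - e) := by noncomm_ring
    rw [e2]
    have h3 : ‖y - e‖ < δ / 4 := by rwa [norm_sub_rev]
    calc ‖π v * (e - y) + (π v * y - y) + (y - e)‖
        ≤ ‖π v * (e - y)‖ + ‖π v * y - y‖ + ‖y - e‖ := norm_add₃_le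
      _ < δ := by linarith
  -- the corner
  obtain ⟨H, _, ι, hinj, hran⟩ := exists_alg (EBE e) (Submodule.isClosed_topologicalClosure _)
    (fun x hx y hy => EBE_mul hx hy) (fun x hx => EBE_star h.e_sa hx)
  have hT : ∀ a, ∃ x : H, ι x = e * π a * e := by
    intro a
    have : e * π a * e ∈ Set.range ι := by
      rw [hran]
      exact ebe_mem e (π a)
    exact this
  choose T0 hT0 using hT
  let T : A →ₗ[ℂ] H :=
    { toFun := T0
      map_add' := fun a b => by
        apply hinj
        rw [map_add, hT0, hT0, hT0, map_add]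
        noncomm_ring
      map_smul' := fun z a => by
        apply hinj
        rw [map_smul, hT0, hT0, map_smul, RingHom.id_apply, mul_smul_comm, smul_mul_assoc] }
  have hTa : ∀ a, ι (T a) = e * π a * e := hT0
  have hnorm : ∀ x, ‖ι x‖ = ‖x‖ := fun x => NonUnitalStarAlgHom.norm_map ι hinj x
  have hTT : TT G n d u (e₀ * e₀) T :=
    { comm := hC
      d_mem := hd
      d_sa := hdsa
      u_mem := h.kd.u_mem
      hn := hn
      kf := hK
      slc := hSLC A G hC m n d u h.kd
      ort := hORT A G hC m n d u h.kd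
      s_mem := hs
      cont := by
        refine AddMonoidHomClass.continuous_of_bound T (‖e‖ * ‖e‖) fun a => ?_
        rw [← hnorm, hTa]
        calc ‖e * π a * e‖ ≤ ‖e * π a‖ * ‖e‖ := norm_mul_le _ _
          _ ≤ ‖e‖ * ‖π a‖ * ‖e‖ := by
              gcongr
              exact norm_mul_le _ _
          _ ≤ ‖e‖ * ‖a‖ * ‖e‖ := by
              gcongr
              exact NonUnitalStarAlgHom.norm_apply_le π _
          _ = ‖e‖ * ‖e‖ * ‖a‖ := by ring
      dense := by
        rw [Metric.denseRange_iff]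
        intro x r hr
        have hx : ι x ∈ EBE e := by
          have : ι x ∈ (EBE e : Set B) := by
            rw [← hran]
            exact ⟨x, rfl⟩
          exact this
        obtain ⟨_, ⟨b, rfl⟩, hb⟩ := Metric.mem_closure_iff.1 (mem_EBE.1 hx) r hr
        obtain ⟨a, rfl⟩ := h.surj b
        refine ⟨a, ?_⟩
        rw [dist_eq_norm] at hb ⊢
        rwa [← hnorm, map_sub, hTa]
      map_star := fun a => by
        apply hinj
        rw [hTa, map_star π, map_star ι, hTa, star_mul, star_mul, h.e_sa.star_eq]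
        noncomm_ring
      map_mul := fun a b => by
        apply hinj
        rw [map_mul, hTa, hTa, hTa, map_mul, map_mul, hπs]
        noncomm_ring
      unit := by
        intro ε hε
        obtain ⟨v, hv, hve⟩ := hunit (ε / (‖e‖ + 1)) (by positivity)
        refine ⟨v, hv, fun a => ?_⟩
        rw [← hnorm, map_sub, hTa, hTa]
        have e1 : e * π (a * v) * e - e * π a * e = e * π a * (π v * e - e) := by
          rw [map_mul]
          noncomm_ring
        rw [e1]
        calc ‖e * π a * (π v * e - e)‖ ≤ ‖e * π a‖ * ‖π v * e - e‖ := norm_mul_le _ _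
          _ ≤ (‖e‖ * ‖π a‖) * ‖π v * e - e‖ := by
              gcongr
              exact norm_mul_le _ _
          _ ≤ (‖e‖ * ‖a‖) * (ε / (‖e‖ + 1)) := by
              gcongr
              exact NonUnitalStarAlgHom.norm_apply_le π _
          _ ≤ ((‖e‖ + 1) * ‖a‖) * (ε / (‖e‖ + 1)) := by
              gcongr
              linarith
          _ = ε * ‖a‖ := by
              field_simp
      map_u := fun a => by
        apply hinj
        rw [hTa, hTa, map_mul, ← mul_assoc, heu]
      cex := fun a => by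
        rw [← hnorm, ← hnorm, hTa, hTa]
        exact hCEX A B G π m n d u g e h a
      epr1 := fun a => by
        apply hinj
        rw [map_star ι, hTa, hTa]
        exact (hEPR A B G π m n d u g e h).1 a
      epr2 := fun t ht a => by
        apply hinj
        rw [hTa, hTa, (hEPR A B G π m n d u g e h).2.1 t ht a, map_mul]
        noncomm_ring
      epr3 := fun t ht a => by
        apply hinj
        rw [hTa, hTa, (hEPR A B G π m n d u g e h).2.2 t ht a, map_mul]
        noncomm_ring
      tcomm := fun x hx y hy => by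
        apply hinj
        rw [map_mul, map_mul, hTa, hTa]
        exact h.e_comm x hx y hy }
  refine ⟨H, inferInstance, ι, ⟨hinj, ?_⟩, ?_, hTT.exists_diag⟩
  · intro x y b
    rw [hran]
    have hx : ι x ∈ (EBE e : Set B) := by
      rw [← hran]
      exact ⟨x, rfl⟩
    have hy : ι y ∈ (EBE e : Set B) := by
      rw [← hran]
      exact ⟨y, rfl⟩
    exact EBE_hered b hx hy
  · refine ⟨T e₀, 0, fun h0 => ?_⟩
    have h1 := hTa e₀
    rw [h0, map_zero, hee₀] at h1
    exact cube_ne h.e_sa h.e_ne h1.symm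

end Pool.Agent.Helper12.Ucg
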