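import Pool.Agent.Helper12.Ucg.Core

/-!
# Moving `RR` past a normaliser
-/

set_option autoImplicit false

open scoped ComplexOrder

namespace Pool.Agent.Helper12.Ucg

open Pool.Agent.Helper39.Uct Pool.Agent.Helper68.Ucg
open Pool.Agent.Helper17.Uct (exists_phi)

variable {A : Type} [NonUnitalCStarAlgebra A]

theorem mem_Dd_self {G : Diag A} (hC : G.Comm) {q : A} (hq : q ∈ G.D) : q ∈ Dd G q := by
  rw [mem_Dd, Metric.mem_closure_iff]
  intro ε hε
  obtain ⟨e, he, _, _, h⟩ := exists_unit G {q} (fun n hn => by
    rw [Finset.mem_singleton.1 hn]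
    exact G.D_sub q hq) ε hε
  refine ⟨q * e, ⟨e, he, rfl⟩, ?_⟩
  rw [dist_comm, dist_eq_norm, hC q hq e he]
  exact h q (by simp)

/-- `w` is a limit of elements `w v` with `v` in the closure of `w* w D`. -/
theorem mem_closure_wv {G : Diag A} (hC : G.Comm) {w : A} (hw : w ∈ G.N) :
    w ∈ closure {a | ∃ v ∈ Dd G (star w * w), a = w * v} := by
  rw [Metric.mem_closure_iff]
  intro ε hε
  have hq : star w * w ∈ G.D := G.N_norm w hw
  have hsa : IsSelfAdjoint (star w * w) := IsSelfAdjoint.star_mul_self w
  obtain ⟨v, hv, _, _, h⟩ := exists_au (ddAlg G (star w * w) hC hq hsa)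
    (Submodule.isClosed_topologicalClosure _) {star w} (fun b hb => by
      rw [Finset.mem_singleton.1 hb, star_star]
      exact mem_Dd_self hC hq) ε hε
  refine ⟨w * star v, ⟨star v, Dd_star hC hq hsa hv, rfl⟩, ?_⟩
  have h1 := h (star w) (by simp)
  rw [dist_comm, dist_eq_norm]
  rwa [← norm_star, star_sub, star_mul, star_star] 

theorem pt_Dd {G : Diag A} (hN : NF G) {d x : A} (hd : d ∈ G.D) (hx : x ∈ Dd G d) (ψ : G.Pt)
    (h0 : ψ x ≠ 0) : ψ d ≠ 0 := by
  intro h
  apply h0
  have hc : Continuous ψ.toFun := AddMonoidHomClass.continuous_of_bound ψ.toFun 1 fun a => by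
    rw [one_mul]
    exact ψ.bound a
  have h1 : x ∈ {a : A | ψ a = 0} := by
    refine closure_minimal ?_ (isClosed_eq hc continuous_const) (mem_Dd.1 hx)
    rintro _ ⟨y, _, rfl⟩
    show ψ (d * y) = 0
    rw [hN.mulL ψ d hd y, h, zero_mul]
  exact h1

theorem slc (hNF : S_NF) (hKF : S_KF) (hX : S_XPN) : S_SLC := by
  intro A _ G hC m n d u hk s hs w hw y hy
  have hN := hNF A G hC
  have hK := hKF A G hC m n d u hk
  have hd := hk.d_mem
  have hn : ∀ i, n i ∈ G.N := by
    intro i
    obtain ⟨φ, hφ⟩ := exists_phi (G := fgr G) t_PE (fgr_comm hC) (c := d)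
      (by rw [fgr_one]; exact hd) hk.d_ne
    exact (hk.iso i φ hφ).1
  have hset : {a | ∃ r ∈ RR G n d, a = w * r} = (LR G n d w : Set A) := by
    ext a
    exact mem_LR.symm
  rw [hset]
  change s * w * y ∈ (LR G n d w).topologicalClosure
  obtain ⟨x, hx, rfl⟩ := hs
  rw [Finset.sum_mul, Finset.sum_mul]
  refine Submodule.sum_mem _ fun j _ => ?_
  have hxD : x j ∈ G.D := Dd_le_D hd (hx j)
  have hyD : y ∈ G.D := Dd_le_D hd hy
  have hwD : star w * w ∈ G.D := G.N_norm w hw
  have hwD' : w * star w ∈ G.D := by
    have := G.N_norm (star w) (G.N_star w hw)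
    rwa [star_star] at this
  have hnx : n j * x j ∈ RR G n d := nx_mem j (hx j)
  -- the normaliser `l`
  set l : A := star w * n j * x j * w with hl
  have hlN : l ∈ G.N :=
    G.N_mul _ (G.N_mul _ (G.N_mul _ (G.N_star w hw) _ (hn j)) _ (G.D_sub _ hxD)) _ hw
  have hly : l * y ∈ RR G n d := by
    have h1 : l * y = kap G n l * y := by
      refine hX A G hC m n d u hk l hlN y hy fun φ _ hφl => ?_
      have hw0 : φ (star w * w) ≠ 0 := by
        intro h0
        apply hφl
        exact hN.left φ (star w * n j * x j) w h0
      obtain ⟨ψ, hψ⟩ := hN.move φ w hw hw0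
      have key : ∀ c, φ (star l * c * l) =
          ψ (star (x j)) * ψ (star (n j) * (w * c * star w) * n j) * ψ (x j) *
            φ (star w * w) := by
        intro c
        have e1 : star l * c * l = star w * (star (x j) *
            (star (n j) * (w * c * star w) * n j) * x j) * w := by
          rw [hl]
          simp only [star_mul, star_star]
          noncomm_ring
        rw [e1, ← hψ, hN.mulR ψ _ hxD, hN.mulL ψ _ (G.D_star _ hxD)]
      have key1 : φ (star l * l) =
          ψ (star (x j)) * ψ (star (n j) * (w * star w) * n j) * ψ (x j) *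
            φ (star w * w) := by
        have e1 : star l * l = star w * (star (x j) *
            (star (n j) * (w * star w) * n j) * x j) * w := by
          rw [hl]
          simp only [star_mul, star_star]
          noncomm_ring
        rw [e1, ← hψ, hN.mulR ψ _ hxD, hN.mulL ψ _ (G.D_star _ hxD)]
      have hx0 : ψ (x j) ≠ 0 := by
        intro h0
        apply hφl
        rw [key1, h0]
        ring
      have hd0 : ψ d ≠ 0 := pt_Dd hN hd (hx j) ψ hx0
      have hiso := hk.iso j ψ hd0
      have hone : ψ (star (n j) * n j) = 1 := by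
        have h2 : ψ (star (n j) * n j * d) = ψ d := by rw [hk.unit j]
        rw [hN.mulR ψ d hd] at h2
        exact mul_right_cancel₀ hd0 (by rw [h2, one_mul])
      have hcc : ∀ c ∈ G.D, φ (star l * c * l) =
          ψ (star (x j)) * ψ (x j) * (φ (star w * w) * φ (star w * w)) * φ c := by
        intro c hc
        have hwc : w * c * star w ∈ G.D := by
          have := G.N_conj (star w) (G.N_star w hw) c hc
          rwa [star_star] at this
        have h3 : ψ (w * c * star w) * φ (star w * w) =
            φ (star w * w) * φ c * φ (star w * w) := by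
          rw [hψ]
          have e2 : star w * (w * c * star w) * w = star w * w * c * (star w * w) := by
            noncomm_ring
          rw [e2, hN.mulR φ _ hwD, hN.mulL φ _ hwD]
        rw [key c, hiso.2.2 _ hwc, hone]
        linear_combination ψ (star (x j)) * ψ (x j) * h3
      have hll : φ (star l * l) =
          ψ (star (x j)) * ψ (x j) * (φ (star w * w) * φ (star w * w)) := by
        have h3 : ψ (w * star w) * φ (star w * w) = φ (star w * w) * φ (star w * w) := by
          rw [hψ]
          have e2 : star w * (w * star w) * w = star w * w * (star w * w) := by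
            noncomm_ring
          rw [e2, hN.mulR φ _ hwD]
        rw [key1, hiso.2.2 _ hwD', hone]
        linear_combination ψ (star (x j)) * ψ (x j) * h3
      refine ⟨hlN, hφl, fun c hc => ?_⟩
      rw [hcc c hc, hll]
      ring
    rw [h1]
    exact hK.kap_mem l y hy
  -- the products
  have hprod : ∀ z ∈ G.D, n j * x j * w * y * (star w * w * z) ∈ LR G n d w := by
    intro z hz
    refine mem_LR.2 ⟨l * y * z, ?_, ?_⟩
    · rw [← (hK.cent z hz _ hly).2]
      exact (hK.cent z hz _ hly).1
    · have h4 : w * y * (star w * w) = w * star w * (w * y) := by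
        rw [mul_assoc w y, hC y hyD _ hwD]
        noncomm_ring
      have h5 : n j * x j * (w * star w) = w * star w * (n j * x j) :=
        ((hK.cent _ hwD' _ hnx).2).symm
      calc n j * x j * w * y * (star w * w * z)
          = n j * x j * (w * y * (star w * w)) * z := by noncomm_ring
        _ = (n j * x j * (w * star w)) * (w * y) * z := by
            rw [h4]
            noncomm_ring
        _ = w * (l * y * z) := by
            rw [h5, hl]
            noncomm_ring
  have hprod2 : ∀ v ∈ Dd G (star w * w), n j * x j * w * y * v ∈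
      (LR G n d w).topologicalClosure := by
    intro v hv
    refine map_mem_closure (f := fun a => n j * x j * w * y * a) (by fun_prop)
      (mem_Dd.1 hv) ?_
    rintro _ ⟨z, hz, rfl⟩
    exact hprod z hz
  have h6 := mem_closure_wv hC hw
  have h7 : n j * x j * w * y ∈ closure ((LR G n d w).topologicalClosure : Set A) := by
    refine map_mem_closure (f := fun a => n j * x j * a * y) (by fun_prop) h6 ?_
    rintro _ ⟨v, hv, rfl⟩
    have e3 : n j * x j * (w * v) * y = n j * x j * w * y * v := by
      have : v * y = y * v := hC v (Dd_le_D hwD hv) y hyD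
      calc n j * x j * (w * v) * y = n j * x j * w * (v * y) := by noncomm_ring
        _ = n j * x j * w * y * v := by
          rw [this]
          noncomm_ring
    show n j * x j * (w * v) * y ∈ (LR G n d w).topologicalClosure
    rw [e3]
    exact hprod2 v hv
  rwa [(Submodule.isClosed_topologicalClosure (LR G n d w)).closure_eq] at h7

end Pool.Agent.Helper12.Ucg
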